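import Mathlib
import Pool.Agent.V11311.FP.V

set_option autoImplicit false

/-!
The law of the first term below a given bound of the trajectories of the Collatz map.
-/

namespace Pool.Agent.Results.MP_d02c56_nt.FirstPassageLaw

open Filter Topology MeasureTheory

/-- the Collatz map on the nonnegative integers -/
def C (x : ℕ) : ℕ := if x % 2 = 0 then x / 2 else 3 * x + 1

/-- `z` is the first term `≤ Y` of the trajectory `n, C n, C (C n), ...` -/
def First (Y n z : ℕ) : Prop := ∃ t : ℕ, C^[t] n = z ∧ z ≤ Y ∧ ∀ i < t, Y < C^[i] n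

/-- the shortcut map -/
def T (x : ℕ) : ℕ := if x % 2 = 0 then x / 2 else (3 * x + 1) / 2

/-- the number of odd terms among `x, T x, ..., T^(j-1) x` -/
def od (j x : ℕ) : ℕ := ∑ i ∈ Finset.range j, (T^[i] x) % 2

/-- The proportion of the integers `0 ≤ x < 2 ^ K` such that `3 ^ od j x < 2 ^ j v` for all `j ≤ K`.
(The parity words of these integers are the `2 ^ K` words of length `K` in the letters `0`, `1`; so this
is the probability that, for `K` tosses of a fair coin, `3 ^ (heads among the first j) < 2 ^ j v` for all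
`j ≤ K`.) -/
noncomputable def Q (K : ℕ) (v : ℝ) : ℝ :=
  ({x : ℕ | x < 2 ^ K ∧ ∀ j ≤ K, (3 : ℝ) ^ od j x < 2 ^ j * v}.ncard : ℝ) / 2 ^ K

theorem Q_eq (K : ℕ) (v : ℝ) : Q K v = Pool.Agent.V11311.FP.qK K v := by
  classical
  unfold Q Pool.Agent.V11311.FP.qK
  rw [← Set.ncard_coe_finset]
  congr 3
  ext x
  rw [Finset.mem_coe, Finset.mem_filter, Finset.mem_range]
  exact Iff.rfl

theorem C_even {n : ℕ} (h : n % 2 = 0) : C n = T n := by
  unfold C T
  rw [if_pos h, if_pos h]

theorem C_odd {n : ℕ} (h : n % 2 = 1) : C n = 3 * n + 1 ∧ C (C n) = T n := by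
  have h1 : C n = 3 * n + 1 := by unfold C; rw [if_neg (by omega)]
  refine ⟨h1, ?_⟩
  rw [h1]
  unfold C T
  rw [if_pos (by omega), if_neg (by omega)]

theorem first_of_C : ∀ t : ℕ, ∀ Y n z : ℕ, C^[t] n = z → z ≤ Y → (∀ i < t, Y < C^[i] n) →
    Pool.Agent.V11311.FP.Fp Y n z := by
  intro t
  induction t using Nat.strong_induction_on with
  | _ t ih =>
    intro Y n z h1 h2 h3
    rcases Nat.eq_zero_or_pos t with rfl | ht
    · exact ⟨0, h1, h2, fun i hi => absurd hi (Nat.not_lt_zero i)⟩
    have hn : Y < n := by simpa using h3 0 ht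
    have hstep : ∀ z', Pool.Agent.V11311.FP.Fp Y (T n) z' → Pool.Agent.V11311.FP.Fp Y n z' := by
      rintro z' ⟨t', g1, g2, g3⟩
      refine ⟨t' + 1, ?_, g2, ?_⟩
      · rw [Function.iterate_succ_apply]; exact g1
      · intro i hi
        cases i with
        | zero => exact hn
        | succ i =>
          rw [Function.iterate_succ_apply]
          exact g3 i (by omega)
    rcases Nat.mod_two_eq_zero_or_one n with h | h
    · obtain ⟨s, rfl⟩ : ∃ s, t = s + 1 := ⟨t - 1, by omega⟩
      apply hstep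
      rw [Function.iterate_succ_apply, C_even h] at h1
      refine ih s (by omega) Y (T n) z h1 h2 fun i hi => ?_
      have := h3 (i + 1) (by omega)
      rwa [Function.iterate_succ_apply, C_even h] at this
    · obtain ⟨g1, g2⟩ := C_odd h
      have ht1 : t ≠ 1 := by
        rintro rfl
        simp only [Function.iterate_one] at h1
        omega
      obtain ⟨s, rfl⟩ : ∃ s, t = s + 2 := ⟨t - 2, by omega⟩
      apply hstep
      rw [Function.iterate_succ_apply, Function.iterate_succ_apply, g2] at h1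
      refine ih s (by omega) Y (T n) z h1 h2 fun i hi => ?_
      have := h3 (i + 2) (by omega)
      rwa [Function.iterate_succ_apply, Function.iterate_succ_apply, g2] at this

theorem C_of_first : ∀ t : ℕ, ∀ Y n z : ℕ, T^[t] n = z → z ≤ Y → (∀ i < t, Y < T^[i] n) → First Y n z := by
  intro t
  induction t with
  | zero =>
    intro Y n z h1 h2 _
    exact ⟨0, h1, h2, fun i hi => absurd hi (Nat.not_lt_zero i)⟩
  | succ t ih =>
    intro Y n z h1 h2 h3
    have hn : Y < n := by simpa using h3 0 (Nat.succ_pos t)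
    rw [Function.iterate_succ_apply] at h1
    obtain ⟨s, g1, g2, g3⟩ := ih Y (T n) z h1 h2 fun i hi => by
      have := h3 (i + 1) (by omega)
      rwa [Function.iterate_succ_apply] at this
    rcases Nat.mod_two_eq_zero_or_one n with h | h
    · refine ⟨s + 1, ?_, g2, ?_⟩
      · rw [Function.iterate_succ_apply, C_even h]; exact g1
      · intro i hi
        cases i with
        | zero => exact hn
        | succ i =>
          rw [Function.iterate_succ_apply, C_even h]
          exact g3 i (by omega)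
    · obtain ⟨k1, k2⟩ := C_odd h
      refine ⟨s + 2, ?_, g2, ?_⟩
      · rw [Function.iterate_succ_apply, Function.iterate_succ_apply, k2]; exact g1
      · intro i hi
        cases i with
        | zero => exact hn
        | succ i =>
          cases i with
          | zero =>
            show Y < C n
            omega
          | succ i =>
            rw [Function.iterate_succ_apply, Function.iterate_succ_apply, k2]
            exact g3 i (by omega)

theorem first_iff (Y n z : ℕ) : First Y n z ↔ Pool.Agent.V11311.FP.Fp Y n z := by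
  constructor
  · rintro ⟨t, h1, h2, h3⟩
    exact first_of_C t Y n z h1 h2 h3
  · rintro ⟨t, h1, h2, h3⟩
    exact C_of_first t Y n z h1 h2 h3

theorem count_eq (P : ℕ → Prop) (N : ℕ) :
    {n : ℕ | 0 < n ∧ n ≤ N ∧ P n}.ncard = Pool.Agent.V11311.FP.cN P N := by
  classical
  unfold Pool.Agent.V11311.FP.cN
  rw [← Set.ncard_coe_finset]
  congr 1
  ext n
  rw [Finset.mem_coe, Finset.mem_filter, Finset.mem_Icc]
  constructor
  · rintro ⟨h1, h2, h3⟩; exact ⟨⟨h1, h2⟩, h3⟩
  · rintro ⟨⟨h1, h2⟩, h3⟩; exact ⟨h1, h2, h3⟩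

/-- **The law of the first passage.** Let `q v` be the probability that, for an infinite sequence of
tosses of a fair coin, `3 ^ (heads among the first j) < 2 ^ j v` for all `j`, and let
`F u = (1 / log (4/3)) ∫_{1 < v ≤ 2u} q v / v dv`; this is a distribution function on `[0, 1]`, `F 1 = 1`.
For all `M` prime to `3`, all residues `r` and all `u` in `[0, 1]`, the proportion of the `n ≤ N` whose
trajectory under the Collatz map has a term `≤ Y`, the first such term `z` being `≤ u Y` and `≡ r` modulo `M`,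
tends to `F u / M` for `Y → ∞`, uniformly in `N ≥ Y ^ (21 / 20)`. -/
theorem result : ∃ q : ℝ → ℝ, (∀ v : ℝ, Tendsto (fun K => Q K v) atTop (𝓝 (q v))) ∧
    1 / Real.log (4 / 3) * ∫ v in Set.Ioc (1 : ℝ) 2, q v / v = 1 ∧
    ∀ M r : ℕ, r < M → Nat.Coprime M 3 → ∀ u : ℝ, 0 ≤ u → u ≤ 1 → ∀ ε : ℝ, 0 < ε →
      ∃ Y0 : ℕ, ∀ Y : ℕ, Y0 ≤ Y → ∀ N : ℕ, (Y : ℝ) ^ (21 / 20 : ℝ) ≤ N →
        |({n : ℕ | 0 < n ∧ n ≤ N ∧ ∃ z : ℕ, First Y n z ∧ (z : ℝ) ≤ u * Y ∧ z % M = r}.ncard : ℝ) / N
          - (1 / Real.log (4 / 3) * ∫ v in Set.Ioc (1 : ℝ) (2 * u), q v / v) / M| ≤ ε := by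
  obtain ⟨q, hq⟩ := Pool.Agent.V11311.FP.q_exists
  refine ⟨q, ?_, ?_, ?_⟩
  · intro v
    refine (hq v).congr fun K => ?_
    rw [Q_eq]
  · have := Pool.Agent.V11311.FP.Fq_one_eq hq
    unfold Pool.Agent.V11311.FP.Fq Pool.Agent.V11311.FP.Lq at this
    rwa [mul_one] at this
  · intro M r hr hM u hu hu1 ε hε
    obtain ⟨Y0, h⟩ := Pool.Agent.V11311.FP.law_unif hq hr hM hu hu1 ε hε
    refine ⟨Y0, fun Y hY N hN => ?_⟩
    have h1 := h Y hY N (by norm_num at hN ⊢; exact hN)
    rw [count_eq (fun n => ∃ z : ℕ, First Y n z ∧ (z : ℝ) ≤ u * Y ∧ z % M = r)]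
    simp only [first_iff]
    exact h1

end Pool.Agent.Results.MP_d02c56_nt.FirstPassageLaw
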