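import Mathlib
import Pool.Agent.V11311.FP.V

set_option autoImplicit false

/-!
Stabilization of the first passage of the trajectories of the Collatz map, for the natural density.
-/

namespace Pool.Agent.Results.MP_d02c56_nt.FirstPassageStabilization

open Filter Topology

/-- the Collatz map on the nonnegative integers -/
def C (x : ℕ) : ℕ := if x % 2 = 0 then x / 2 else 3 * x + 1

/-- the number of the elements of `P` in `[1, N]` -/
noncomputable def count (P : Set ℕ) (N : ℕ) : ℕ := {n : ℕ | 0 < n ∧ n ≤ N ∧ n ∈ P}.ncard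

theorem count_eq (P : Set ℕ) (N : ℕ) : count P N = Pool.Agent.V11311.FP.cN (fun n => n ∈ P) N := by
  classical
  unfold count Pool.Agent.V11311.FP.cN
  rw [← Set.ncard_coe_finset]
  congr 1
  ext n
  rw [Finset.mem_coe, Finset.mem_filter, Finset.mem_Icc]
  constructor
  · rintro ⟨h1, h2, h3⟩; exact ⟨⟨h1, h2⟩, h3⟩
  · rintro ⟨⟨h1, h2⟩, h3⟩; exact ⟨h1, h2, h3⟩

/-- **Stabilization of the first passage, for the natural density.** For every `ε > 0` there is `Y0` such that
for all `Y ≥ Y0` the following holds for ALL sets `P` of integers with `n ∈ P ↔ C n ∈ P` for all `n > Y`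
(for example, for the set of the `n` such that the first term `≤ Y` of the trajectory of `n` belongs to a
given set): `P` has a natural density `D`, and for all `N ≥ Y ^ (21 / 20)` the proportion of the elements
of `P` among the integers `1, ..., N` differs from `D` by at most `ε`. -/
theorem result : ∀ ε : ℝ, 0 < ε → ∃ Y0 : ℕ, ∀ Y : ℕ, Y0 ≤ Y → ∀ P : Set ℕ, (∀ n : ℕ, Y < n → (n ∈ P ↔ C n ∈ P)) →
    ∃ D : ℝ, Tendsto (fun N : ℕ => (count P N : ℝ) / N) atTop (𝓝 D) ∧
      ∀ N : ℕ, (Y : ℝ) ^ (21 / 20 : ℝ) ≤ N → |(count P N : ℝ) / N - D| ≤ ε := by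
  intro ε hε
  obtain ⟨Y0, h⟩ := Pool.Agent.V11311.FP.stab ε hε
  refine ⟨Y0, fun Y hY P hP => ?_⟩
  have hAP : Pool.Agent.V11311.FP.AP Y (fun n => n ∈ P) := by
    intro n hn
    rcases Nat.mod_two_eq_zero_or_one n with h2 | h2
    · have h3 : C n = Pool.Agent.Helper894.Collatz.T n := by
        unfold C Pool.Agent.Helper894.Collatz.T
        rw [if_pos h2, if_pos h2]
      have := hP n hn
      rwa [h3] at this
    · have h3 : C n = 3 * n + 1 := by unfold C; rw [if_neg (by omega)]
      have h4 : C (C n) = Pool.Agent.Helper894.Collatz.T n := by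
        rw [h3]
        unfold C Pool.Agent.Helper894.Collatz.T
        rw [if_pos (by omega), if_neg (by omega)]
      have h5 := hP n hn
      have h6 := hP (C n) (by omega)
      rw [h4] at h6
      exact h5.trans h6
  obtain ⟨D, hD, h1⟩ := h Y hY _ hAP
  refine ⟨D, ?_, ?_⟩
  · unfold Pool.Agent.V11311.FP.HasD at hD
    refine hD.congr fun N => ?_
    rw [count_eq]
  · intro N hN
    rw [count_eq]
    exact h1 N (by norm_num at hN ⊢; exact hN)

end Pool.Agent.Results.MP_d02c56_nt.FirstPassageStabilization
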