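import Mathlib
import Pool.Agent.V11311.GT.Z

set_option autoImplicit false

/-!
# Almost all Collatz trajectories are generic for functions with mean zero in short intervals

Author: helper311. The proof uses the stabilization theorem for first passage locations
(Pool/Agent/V11311), the coalescence theorem of helper499 and team (Pool/Agent/H499R2) and, for the
Liouville and Möbius functions, the soft Matomäki-Radziwiłł theorem in residue classes of helper376,
helper970, helper426 and team.
-/

namespace Pool.Agent.Results.MP_d02c56_nt.GenericTrajectories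

open Filter Topology

/-- The Collatz map, one halving per step. -/
def T (n : ℕ) : ℕ := if n % 2 = 0 then n / 2 else (3 * n + 1) / 2

/-- `n` reaches `1`. -/
def Reaches (n : ℕ) : Prop := ∃ k, T^[k] n = 1

/-- The number of positive integers `n ≤ N` with the property `P`. -/
noncomputable def count (P : ℕ → Prop) (N : ℕ) : ℝ := ({n : ℕ | 1 ≤ n ∧ n ≤ N ∧ P n}.ncard : ℝ)

/-- The positive integers with the property `P` have natural density `l`. -/
def HasDensity (P : ℕ → Prop) (l : ℝ) : Prop :=
  Tendsto (fun N : ℕ => count P N / N) atTop (𝓝 l)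

/-- `F` has mean zero in almost all short intervals, in every residue class: for all residues `a`
modulo `q` and all `ε > 0` there is a length `H` such that, for all large `N`, for all but `ε N` of the
`x ≤ N` the sum of `F n` over the `n ≡ a mod q` in `(x, x + H]` has absolute value at most `ε H`. -/
def ShortMeanZero (F : ℕ → ℂ) : Prop :=
  ∀ q a : ℕ, 0 < q → a < q → ∀ ε : ℝ, 0 < ε → ∃ H : ℕ, 1 ≤ H ∧ ∀ᶠ N : ℕ in atTop,
    count (fun x => ε * H < ‖∑ n ∈ (Finset.Ioc x (x + H)).filter (fun n => n % q = a), F n‖) N ≤ ε * N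

/-- `F` has mean zero along almost all trajectories: for all `ε > 0`,
(i) for almost all `n` (density `1`) the partial sums of `F` along the trajectory of `n` are at most
`ε log n` for all times up to `2 log n / log (4 / 3)`;
(ii) the `n` that reach `1`, for the first time after `τ = (2 / log (4 / 3) + O(ε)) log n` steps, with
the sum of `F` along the trajectory up to `1` at most `ε τ`, have density `δ`. -/
def MeanZeroAlong (δ : ℝ) (F : ℕ → ℂ) : Prop := ∀ ε : ℝ, 0 < ε →
  HasDensity (fun n => ∀ t : ℕ, (t : ℝ) ≤ 2 / Real.log (4 / 3) * Real.log n →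
    ‖∑ j ∈ Finset.range t, F (T^[j] n)‖ ≤ ε * Real.log n) 1 ∧
  HasDensity (fun n => ∃ τ : ℕ, T^[τ] n = 1 ∧ (∀ j < τ, T^[j] n ≠ 1) ∧
    |(τ : ℝ) - 2 / Real.log (4 / 3) * Real.log n| ≤ ε * Real.log n ∧
    ‖∑ j ∈ Finset.range τ, F (T^[j] n)‖ ≤ ε * τ) δ

/-- The function `f` on the class `r` modulo `M`, zero elsewhere. -/
noncomputable def on (M r : ℕ) (f : ℕ → ℂ) (n : ℕ) : ℂ := if n % M = r then f n else 0

open scoped Classical in
/-- The indicator function of `A` minus `c`. -/
noncomputable def bal (A : Set ℕ) (c : ℝ) (n : ℕ) : ℂ := (((if n ∈ A then 1 else 0) - c : ℝ) : ℂ)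

theorem T_eq : T = Pool.Agent.Helper894.Collatz.T := rfl

theorem mz_of {F : ℕ → ℂ} (h : ShortMeanZero F) : Pool.Agent.V11311.GT.MZ F := by
  intro q a hq ha ε hε
  obtain ⟨H, hH, h1⟩ := h q a hq ha ε hε
  refine ⟨H, hH, h1.mono fun N hN => ?_⟩
  rw [Pool.Agent.V11311.GT.cN_cnt]
  exact hN

theorem mean_of {δ : ℝ} (hδ : HasDensity Reaches δ) {F : ℕ → ℂ} (h1 : ∀ n, ‖F n‖ ≤ 1)
    (hF : Pool.Agent.V11311.GT.Gen F) : MeanZeroAlong δ F :=
  fun _ hε => Pool.Agent.V11311.GT.both h1 hF hδ hε

/-- The integers that reach `1` have a density `δ > 0`, equal to `1` if and only if all positive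
integers reach `1`, and the following functions have mean zero along almost all trajectories:
(1) on every class `r mod M`, every `F` with `|F| ≤ 1` that has mean zero in almost all short intervals
in every residue class;
(2) on every class, the Liouville function `λ(n) = (-1) ^ Ω(n)`;
(3) on every class, the Möbius function;
(4) on every class, the indicator function of `{n : a ≤ {θ n} < b}` minus `b - a`, for `θ` irrational and
`0 ≤ a ≤ b ≤ 1`;
(5) the indicator function of the squarefree integers minus `27 / (4 π ^ 2)`;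
(6) the indicator function of every set of natural density zero. -/
theorem result : ∃ δ : ℝ, 0 < δ ∧ δ ≤ 1 ∧ (δ = 1 ↔ ∀ n : ℕ, 1 ≤ n → Reaches n) ∧
    HasDensity Reaches δ ∧
    (∀ F : ℕ → ℂ, (∀ n, ‖F n‖ ≤ 1) → ShortMeanZero F →
      ∀ M r : ℕ, 0 < M → MeanZeroAlong δ (on M r F)) ∧
    (∀ M r : ℕ, 0 < M → MeanZeroAlong δ
      (on M r fun n => (-1) ^ ArithmeticFunction.cardFactors n)) ∧
    (∀ M r : ℕ, 0 < M → MeanZeroAlong δ
      (on M r fun n => ((ArithmeticFunction.moebius n : ℤ) : ℂ))) ∧
    (∀ θ : ℝ, Irrational θ → ∀ a b : ℝ, 0 ≤ a → a ≤ b → b ≤ 1 → ∀ M r : ℕ, 0 < M →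
      MeanZeroAlong δ (on M r
        (bal {n : ℕ | a ≤ Int.fract (θ * n) ∧ Int.fract (θ * n) < b} (b - a)))) ∧
    MeanZeroAlong δ (bal {n : ℕ | Squarefree n} (27 / (4 * Real.pi ^ 2))) ∧
    (∀ A : Set ℕ, HasDensity (fun n => n ∈ A) 0 → MeanZeroAlong δ (bal A 0)) := by
  obtain ⟨δ, hδ0, hδ1, hδ2, hδ⟩ := Pool.Agent.H499R2.ND.Bas_density
  have hδ' : HasDensity Reaches δ := hδ
  refine ⟨δ, hδ0, hδ1, hδ2, hδ', ?_, ?_, ?_, ?_, ?_, ?_⟩
  · intro F h1 hF M r hM
    apply mean_of hδ'
    · intro n
      unfold on
      split_ifs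
      · exact h1 n
      · simp
    · exact Pool.Agent.V11311.GT.gen_mz h1 (mz_of hF) hM r
  · intro M r hM
    apply mean_of hδ'
    · intro n
      unfold on
      split_ifs
      · simp
      · simp
    · convert Pool.Agent.V11311.GT.gen_lam hM r using 2 with n
      unfold on Pool.Agent.H376R2.MR.lam
      split_ifs
      · push_cast
        rfl
      · simp
  · intro M r hM
    apply mean_of hδ'
    · intro n
      unfold on
      split_ifs
      · rw [Complex.norm_intCast]
        exact_mod_cast ArithmeticFunction.abs_moebius_le_one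
      · simp
    · convert Pool.Agent.V11311.GT.gen_moeb hM r using 2 with n
      unfold on
      split_ifs
      · push_cast
        rfl
      · simp
  · intro θ hθ a b ha hab hb M r hM
    have h1 : ∀ n, ‖on M r (bal {n : ℕ | a ≤ Int.fract (θ * n) ∧ Int.fract (θ * n) < b} (b - a)) n‖ ≤ 1 := by
      intro n
      unfold on bal
      split_ifs
      · rw [Complex.norm_real, Real.norm_eq_abs, abs_le]
        constructor <;> linarith
      · rw [Complex.norm_real, Real.norm_eq_abs, abs_le]
        constructor <;> linarith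
      · simp
    apply mean_of hδ' h1
    convert Pool.Agent.V11311.GT.gen_rot hθ hM r ha hab hb using 2 with n
    unfold on bal
    simp only [Set.mem_setOf_eq]
    split_ifs <;> simp
  · have h0 := Pool.Agent.V11311.GT.sqf_const
    apply mean_of hδ'
    · intro n
      unfold bal
      rw [Complex.norm_real, Real.norm_eq_abs, abs_le]
      split_ifs <;> constructor <;> linarith [h0.1, h0.2]
    · have h := Pool.Agent.V11311.GT.gen_sqf
      have e : (fun n => (((if Squarefree n then 1 else 0) - 27 / (4 * Real.pi ^ 2) : ℝ) : ℂ)) =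
          bal {n : ℕ | Squarefree n} (27 / (4 * Real.pi ^ 2)) := by
        funext n
        unfold bal
        by_cases hn : Squarefree n
        · rw [if_pos hn, if_pos (show n ∈ {n : ℕ | Squarefree n} from hn)]
        · rw [if_neg hn, if_neg (show ¬ n ∈ {n : ℕ | Squarefree n} from hn)]
      rw [← e]
      exact h
  · intro A hA
    apply mean_of hδ'
    · intro n
      unfold bal
      rw [Complex.norm_real, Real.norm_eq_abs, abs_le]
      split_ifs <;> norm_num
    · classical
      have h := Pool.Agent.V11311.GT.gen_dens hA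
      have e : (fun n => ((@ite ℝ (n ∈ A) (Classical.propDecidable _) 1 0 : ℝ) : ℂ)) = bal A 0 := by
        funext n
        unfold bal
        rw [sub_zero]
      rw [← e]
      exact h

end Pool.Agent.Results.MP_d02c56_nt.GenericTrajectories
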