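import Mathlib
import Pool.Agent.V11311.PM.E

set_option autoImplicit false

/-!
The trajectories of `k` random integers under the Collatz map have a common term in `(x, 2x]` with a
probability which is much larger than `x ^ (1 - k)`.
-/

namespace Pool.Agent.Results.MP_d02c56_nt.RandomTuplesMeetHigh

open Filter Topology

/-- the Collatz map on the nonnegative integers -/
def C (x : ℕ) : ℕ := if x % 2 = 0 then x / 2 else 3 * x + 1

/-- the number of the `k`-tuples of integers in `[1, N]` whose `k` trajectories under the Collatz map have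
a common term in `(x, 2x]` -/
noncomputable def tuples (k x N : ℕ) : ℕ :=
  {v : Fin k → ℕ | (∀ i, 0 < v i ∧ v i ≤ N) ∧ ∃ m, x < m ∧ m ≤ 2 * x ∧ ∀ i, ∃ t, C^[t] (v i) = m}.ncard

/-- the trajectories of the shortcut map are parts of those of `C` -/
theorem vis_C : ∀ j n m : ℕ, Pool.Agent.Helper894.Collatz.T^[j] n = m → ∃ t, C^[t] n = m := by
  intro j
  induction j with
  | zero =>
    intro n m h
    exact ⟨0, h⟩
  | succ j ih =>
    intro n m h
    rw [Function.iterate_succ_apply] at h
    obtain ⟨t, ht⟩ := ih _ _ h
    rcases Nat.mod_two_eq_zero_or_one n with h2 | h2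
    · have h3 : C n = Pool.Agent.Helper894.Collatz.T n := by
        unfold C Pool.Agent.Helper894.Collatz.T
        rw [if_pos h2, if_pos h2]
      refine ⟨t + 1, ?_⟩
      rw [Function.iterate_succ_apply, h3, ht]
    · have h3 : C n = 3 * n + 1 := by unfold C; rw [if_neg (by omega)]
      have h4 : C (C n) = Pool.Agent.Helper894.Collatz.T n := by
        rw [h3]
        unfold C Pool.Agent.Helper894.Collatz.T
        rw [if_pos (by omega), if_neg (by omega)]
      refine ⟨t + 2, ?_⟩
      rw [Function.iterate_succ_apply, Function.iterate_succ_apply, h4, ht]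

/-- **Random trajectories meet high.** For every `k ≥ 2` and every `B` there is `x₀` such that for all
`x ≥ x₀` and all large `N` (depending on `x`) at least `(B / x ^ (k - 1)) N ^ k` of the `N ^ k` `k`-tuples of
integers in `[1, N]` have the property that their `k` trajectories have a common term in `(x, 2x]`. -/
theorem result (k : ℕ) (hk : 2 ≤ k) (B : ℝ) : ∀ᶠ x : ℕ in atTop, ∀ᶠ N : ℕ in atTop,
    B / (x : ℝ) ^ (k - 1) * (N : ℝ) ^ k ≤ tuples k x N := by
  filter_upwards [Pool.Agent.V11311.PM.main hk B] with x hx
  filter_upwards [hx] with N hN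
  refine hN.trans ?_
  have h1 : (Pool.Agent.V11311.PM.TS k x N).ncard ≤ tuples k x N := by
    unfold tuples
    apply Set.ncard_le_ncard
    · rintro v ⟨h1, m, h2, h3, h4⟩
      refine ⟨h1, m, h2, h3, fun i => ?_⟩
      obtain ⟨j, hj⟩ := h4 i
      exact vis_C j _ _ hj
    · apply (Fintype.piFinset (fun _ : Fin k => Finset.Icc 1 N)).finite_toSet.subset
      rintro v ⟨h1, -⟩
      rw [Finset.mem_coe, Fintype.mem_piFinset]
      intro i
      rw [Finset.mem_Icc]
      exact h1 i
  exact_mod_cast h1

end Pool.Agent.Results.MP_d02c56_nt.RandomTuplesMeetHigh
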